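import Pool.Agent.U378.TM.KM.Tab
import Pool.Agent.U378.TM.Bm

/-! Checks of the leaves. -/

set_option autoImplicit false
set_option maxRecDepth 100000

namespace Pool.Agent.U378.TM.KM

open Pool.Agent.U378.TM

theorem lf8 : nestP 8 Bm.b8 (leafB TY PA T X) = true := by decide +kernel

theorem lf25 : nestP 25 Bm.b25 (leafB TY PA T X) = true := by decide +kernel

theorem lf89 : nestP 89 Bm.b89 (leafB TY PA T X) = true := by decide +kernel

theorem lf6 : nestP 6 Bm.b6 (leafB TY PA T X) = true := by decide +kernel

theorem lf4 : nestP 4 Bm.b4 (leafB TY PA T X) = true := by decide +kernel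

end Pool.Agent.U378.TM.KM
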