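import Pool.Agent.U378.TM.KM.Tab
import Pool.Agent.U378.TM.Bm

/-! Checks of the leaves. -/

set_option autoImplicit false
set_option maxRecDepth 100000

namespace Pool.Agent.U378.TM.KM

open Pool.Agent.U378.TM

theorem lf162 : nestP 162 Bm.b162 (leafB TY PA T X) = true := by decide +kernel

theorem lf1 : nestP 1 Bm.b1 (leafB TY PA T X) = true := by decide +kernel

theorem lf11 : nestP 11 Bm.b11 (leafB TY PA T X) = true := by decide +kernel

theorem lf27 : nestP 27 Bm.b27 (leafB TY PA T X) = true := by decide +kernel

theorem lf31 : nestP 31 Bm.b31 (leafB TY PA T X) = true := by decide +kernel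

theorem lf47 : nestP 47 Bm.b47 (leafB TY PA T X) = true := by decide +kernel

theorem lf91 : nestP 91 Bm.b91 (leafB TY PA T X) = true := by decide +kernel

theorem lf111 : nestP 111 Bm.b111 (leafB TY PA T X) = true := by decide +kernel

end Pool.Agent.U378.TM.KM
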