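import Pool.Agent.U378.TM.KM.Tab
import Pool.Agent.U378.TM.Bm

/-! Checks of the leaves. -/

set_option autoImplicit false
set_option maxRecDepth 100000

namespace Pool.Agent.U378.TM.KM

open Pool.Agent.U378.TM

theorem lf171 : nestP 171 Bm.b171 (leafB TY PA T X) = true := by decide +kernel

theorem lf170 : nestP 170 Bm.b170 (leafB TY PA T X) = true := by decide +kernel

theorem lf22 : nestP 22 Bm.b22 (leafB TY PA T X) = true := by decide +kernel

theorem lf179 : nestP 179 Bm.b179 (leafB TY PA T X) = true := by decide +kernel

theorem lf85 : nestP 85 Bm.b85 (leafB TY PA T X) = true := by decide +kernel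

theorem lf42 : nestP 42 Bm.b42 (leafB TY PA T X) = true := by decide +kernel

theorem lf106 : nestP 106 Bm.b106 (leafB TY PA T X) = true := by decide +kernel

theorem lf7 : nestP 7 Bm.b7 (leafB TY PA T X) = true := by decide +kernel

theorem lf163 : nestP 163 Bm.b163 (leafB TY PA T X) = true := by decide +kernel

theorem lf167 : nestP 167 Bm.b167 (leafB TY PA T X) = true := by decide +kernel

end Pool.Agent.U378.TM.KM
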