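import Pool.Agent.U378.TM.KM.Tab
import Pool.Agent.U378.TM.Bm

/-! Checks of the leaves. -/

set_option autoImplicit false
set_option maxRecDepth 100000

namespace Pool.Agent.U378.TM.KM

open Pool.Agent.U378.TM

theorem lf29 : nestP 29 Bm.b29 (leafB TY PA T X) = true := by decide +kernel

theorem lf166 : nestP 166 Bm.b166 (leafB TY PA T X) = true := by decide +kernel

theorem lf183 : nestP 183 Bm.b183 (leafB TY PA T X) = true := by decide +kernel

theorem lf46 : nestP 46 Bm.b46 (leafB TY PA T X) = true := by decide +kernel

theorem lf110 : nestP 110 Bm.b110 (leafB TY PA T X) = true := by decide +kernel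

theorem lf2 : nestP 2 Bm.b2 (leafB TY PA T X) = true := by decide +kernel

theorem lf86 : nestP 86 Bm.b86 (leafB TY PA T X) = true := by decide +kernel

theorem lf187 : nestP 187 Bm.b187 (leafB TY PA T X) = true := by decide +kernel

theorem lf23 : nestP 23 Bm.b23 (leafB TY PA T X) = true := by decide +kernel

theorem lf43 : nestP 43 Bm.b43 (leafB TY PA T X) = true := by decide +kernel

theorem lf107 : nestP 107 Bm.b107 (leafB TY PA T X) = true := by decide +kernel

theorem lf63 : nestP 63 Bm.b63 (leafB TY PA T X) = true := by decide +kernel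

theorem lf127 : nestP 127 Bm.b127 (leafB TY PA T X) = true := by decide +kernel

theorem lf191 : nestP 191 Bm.b191 (leafB TY PA T X) = true := by decide +kernel

theorem lf3 : nestP 3 Bm.b3 (leafB TY PA T X) = true := by decide +kernel

theorem lf87 : nestP 87 Bm.b87 (leafB TY PA T X) = true := by decide +kernel

end Pool.Agent.U378.TM.KM
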