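import Pool.Agent.U378.TM.KM.G0
import Pool.Agent.U378.TM.KM.G1
import Pool.Agent.U378.TM.KM.G2
import Pool.Agent.U378.TM.KM.G3
import Pool.Agent.U378.TM.KM.G4
import Pool.Agent.U378.TM.KM.G5
import Pool.Agent.U378.TM.KM.G6
import Pool.Agent.U378.TM.KM.P0
import Pool.Agent.U378.TM.KM.P1
import Pool.Agent.U378.TM.KM.P2
import Pool.Agent.U378.TM.KM.P3
import Pool.Agent.U378.TM.KM.P4
import Pool.Agent.U378.TM.KM.P5
import Pool.Agent.U378.TM.KM.P6
import Pool.Agent.U378.TM.KM.P7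
import Pool.Agent.U378.TM.KM.P8
import Pool.Agent.U378.TM.KM.P9
import Pool.Agent.U378.TM.KM.P10
import Pool.Agent.U378.TM.KM.P11
import Pool.Agent.U378.TM.KM.P12
import Pool.Agent.U378.TM.KM.P13
import Pool.Agent.U378.TM.KM.P14
import Pool.Agent.U378.TM.KM.P15
import Pool.Agent.U378.TM.Sum

/-! The certificate. -/

set_option autoImplicit false
set_option maxRecDepth 100000

namespace Pool.Agent.U378.TM.KM

open Pool.Agent.U378.TM

open Pool.Agent.U378.TM.Bm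

def O (t : ℕ) : ℕ := 8388608 + 4500 * (if t ∈ [4, 15] then 1 else 0)

theorem A4b_zero (k : ℕ) (f : ℕ → ℕ → ℕ → Bool) : A4b k 0 f = true := by
  unfold A4b
  simp only [sb_zero]
  rfl

theorem nestP_zero (p : ℕ) (F : F20) : nestP p 0 F = true := by
  unfold nestP nest
  exact A4b_zero _ _

theorem leaves : ∀ p < 256, ∃ BM, lmP p BM = true ∧ nestP p BM (leafB TY PA T X) = true := by
  intro p hp
  by_cases h0 : p ∈ [12, 13, 14, 15, 16, 17, 18, 19, 20, 24, 28, 32, 33, 34, 35, 36, 37, 38, 39, 40, 41, 44, 45, 48, 49, 50, 51, 52, 53, 54, 55, 56, 57, 58, 59, 60, 61, 62, 64, 65, 66, 67, 68, 69, 70, 71, 72, 73, 74, 75, 76, 77, 78, 79, 80, 81, 82, 83, 84, 88, 92, 93, 94, 95, 96, 97, 98, 99, 100, 101, 102, 103, 104, 105, 108, 109, 112, 113, 114, 115, 116, 117, 118, 119, 120, 121, 122, 123, 124, 125, 126, 128, 129, 130, 131, 132, 133, 134, 135, 136, 137, 138, 139, 140, 141, 142, 143, 144, 145, 146, 147, 148, 149,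 150, 151, 152, 153, 154, 155, 156, 157, 158, 159, 160, 161, 164, 165, 168, 169, 172, 173, 174, 175, 176, 177, 178, 180, 181, 182, 184, 185, 186, 188, 189, 190, 192, 193, 194, 195, 196, 197, 198, 199, 200, 201, 202, 203, 204, 205, 206, 207, 208, 209, 210, 211, 212, 213, 214, 215, 216, 217, 218, 219, 220, 221, 222, 223, 224, 225, 226, 227, 228, 229, 230, 231, 232, 233, 234, 235, 236, 237, 238, 239, 240, 241, 242, 243, 244, 245, 246, 247, 248, 249, 250, 251, 252, 253, 254, 255]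
  · exact ⟨0, lm0s p h0, nestP_zero p _⟩
  have h1 : p ∈ [0, 1, 2, 3, 4, 5, 6, 7, 8, 9, 10, 11, 21, 22, 23, 25, 26, 27, 29, 30, 31, 42, 43, 46, 47, 63, 85, 86, 87, 89, 90, 91, 106, 107, 110, 111, 127, 162, 163, 166, 167, 170, 171, 179, 183, 187, 191] := by
    revert h0
    revert p
    decide +kernel
  fin_cases h1
  · exact ⟨_, lm0, lf0⟩
  · exact ⟨_, lm1, lf1⟩
  · exact ⟨_, lm2, lf2⟩
  · exact ⟨_, lm3, lf3⟩
  · exact ⟨_, lm4, lf4⟩
  · exact ⟨_, lm5, lf5⟩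
  · exact ⟨_, lm6, lf6⟩
  · exact ⟨_, lm7, lf7⟩
  · exact ⟨_, lm8, lf8⟩
  · exact ⟨_, lm9, lf9⟩
  · exact ⟨_, lm10, lf10⟩
  · exact ⟨_, lm11, lf11⟩
  · exact ⟨_, lm21, lf21⟩
  · exact ⟨_, lm22, lf22⟩
  · exact ⟨_, lm23, lf23⟩
  · exact ⟨_, lm25, lf25⟩
  · exact ⟨_, lm26, lf26⟩
  · exact ⟨_, lm27, lf27⟩
  · exact ⟨_, lm29, lf29⟩
  · exact ⟨_, lm30, lf30⟩
  · exact ⟨_, lm31, lf31⟩
  · exact ⟨_, lm42, lf42⟩
  · exact ⟨_, lm43, lf43⟩
  · exact ⟨_, lm46, lf46⟩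
  · exact ⟨_, lm47, lf47⟩
  · exact ⟨_, lm63, lf63⟩
  · exact ⟨_, lm85, lf85⟩
  · exact ⟨_, lm86, lf86⟩
  · exact ⟨_, lm87, lf87⟩
  · exact ⟨_, lm89, lf89⟩
  · exact ⟨_, lm90, lf90⟩
  · exact ⟨_, lm91, lf91⟩
  · exact ⟨_, lm106, lf106⟩
  · exact ⟨_, lm107, lf107⟩
  · exact ⟨_, lm110, lf110⟩
  · exact ⟨_, lm111, lf111⟩
  · exact ⟨_, lm127, lf127⟩
  · exact ⟨_, lm162, lf162⟩
  · exact ⟨_, lm163, lf163⟩
  · exact ⟨_, lm166, lf166⟩
  · exact ⟨_, lm167, lf167⟩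
  · exact ⟨_, lm170, lf170⟩
  · exact ⟨_, lm171, lf171⟩
  · exact ⟨_, lm179, lf179⟩
  · exact ⟨_, lm183, lf183⟩
  · exact ⟨_, lm187, lf187⟩
  · exact ⟨_, lm191, lf191⟩

theorem cert : Cert TY PA AC AF 16 T O X where
  tab := tab
  sym := by
    intro t ht
    interval_cases t
    · exact sym0
    · exact sym1
    · exact sym2
    · exact sym3
    · exact sym4
    · exact sym5
    · exact sym6
    · exact sym7
    · exact sym8
    · exact sym9
    · exact sym10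
    · exact sym11
    · exact sym12
    · exact sym13
    · exact sym14
    · exact sym15
  leaf := leaves
  psd := by
    intro t ht
    interval_cases t
    · exact psd0
    · exact psd1
    · exact psd2
    · exact psd3
    · exact psd4
    · exact psd5
    · exact psd6
    · exact psd7
    · exact psd8
    · exact psd9
    · exact psd10
    · exact psd11
    · exact psd12
    · exact psd13
    · exact psd14
    · exact psd15

end Pool.Agent.U378.TM.KM
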